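import Mathlib

set_option autoImplicit false

/-!
The sandpile group of a Cayley graph of `F_2^r` does not determine the multiplicity function up to
`GL_r(F_2)`-equivalence.
-/

namespace Pool.Agent.Results.MP_93e4b7_co.NotGLDetermined

open Matrix

/-- The group `F_2^r`. -/
abbrev W (r : ℕ) := Fin r → ZMod 2

/-- A multiplicity function, given on all of `F_2^r`; only the values at nonzero vectors are used.
It is a generator multiplicity function when its support spans. -/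
def Generating {r : ℕ} (μ : W r → ℕ) : Prop :=
  Submodule.span (ZMod 2) {u : W r | u ≠ 0 ∧ 0 < μ u} = ⊤

/-- The Laplacian of `G(F_2^r, μ)`. -/
def lap {r : ℕ} (μ : W r → ℕ) : Matrix (W r) (W r) ℤ := Matrix.of fun w w' =>
  if w = w' then ∑ u ∈ Finset.univ.erase 0, (μ u : ℤ) else -(μ (w + w') : ℤ)

/-- The cokernel `Z^V / L Z^V` of an integer matrix. -/
def Coker {V : Type} [Fintype V] (L : Matrix V V ℤ) : Type :=
  (V → ℤ) ⧸ LinearMap.range L.mulVecLin

noncomputable instance {V : Type} [Fintype V] (L : Matrix V V ℤ) : AddCommGroup (Coker L) :=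
  inferInstanceAs (AddCommGroup ((V → ℤ) ⧸ LinearMap.range L.mulVecLin))

/-- The torsion subgroup of the cokernel of an integer matrix. -/
def CokerTorsion {V : Type} [Fintype V] (L : Matrix V V ℤ) : Type :=
  Submodule.torsion ℤ (Coker L)

noncomputable instance {V : Type} [Fintype V] (L : Matrix V V ℤ) :
    AddCommGroup (CokerTorsion L) :=
  inferInstanceAs (AddCommGroup (Submodule.torsion ℤ (Coker L)))

/-- The sandpile group `K(G(F_2^r, μ))`: the finite part (torsion) of the cokernel of the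
Laplacian. -/
abbrev K {r : ℕ} (μ : W r → ℕ) : Type := CokerTorsion (lap μ)

/-- `GL`-equivalence of multiplicity functions. -/
def GLEquivalent {r : ℕ} (μ ν : W r → ℕ) : Prop :=
  ∃ T : W r ≃ₗ[ZMod 2] W r, ∀ u, u ≠ 0 → ν (T u) = μ u

/-- The statement Q1. -/
def Q1 : Prop := ∀ (r : ℕ) (μ ν : W r → ℕ), 1 ≤ r → Generating μ → Generating ν →
  (Nonempty (K μ ≃+ K ν) ↔ GLEquivalent μ ν)

section aux

theorem torsion_equiv {A B : Type} [AddCommGroup A] [AddCommGroup B] (e : A ≃+ B) :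
    Nonempty (Submodule.torsion ℤ A ≃+ Submodule.torsion ℤ B) := by
  have hf : ∀ x : A, x ∈ Submodule.torsion ℤ A → e x ∈ Submodule.torsion ℤ B := by
    intro x hx
    rw [Submodule.mem_torsion_iff] at hx ⊢
    obtain ⟨a, ha⟩ := hx
    refine ⟨a, ?_⟩
    have := congrArg e ha
    rw [map_zero] at this
    rw [← this]
    exact (map_zsmul e (a : ℤ) x).symm
  have hg : ∀ x : B, x ∈ Submodule.torsion ℤ B → e.symm x ∈ Submodule.torsion ℤ A := by
    intro x hx
    rw [Submodule.mem_torsion_iff] at hx ⊢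
    obtain ⟨a, ha⟩ := hx
    refine ⟨a, ?_⟩
    have := congrArg e.symm ha
    rw [map_zero] at this
    rw [← this]
    exact (map_zsmul e.symm (a : ℤ) x).symm
  exact ⟨{ toFun := fun x => ⟨e x.1, hf _ x.2⟩
           invFun := fun x => ⟨e.symm x.1, hg _ x.2⟩
           left_inv := fun x => Subtype.ext (e.symm_apply_apply _)
           right_inv := fun x => Subtype.ext (e.apply_symm_apply _)
           map_add' := fun x y => Subtype.ext (map_add e _ _) }⟩

theorem coker_equiv {V : Type} [Fintype V] [DecidableEq V] (L1 L2 P P' Q Q' : Matrix V V ℤ)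
    (hP : P * P' = 1) (hP' : P' * P = 1) (hQ : Q * Q' = 1) (h : P * L1 * Q = L2) :
    Nonempty (CokerTorsion L1 ≃+ CokerTorsion L2) := by
  let e : (V → ℤ) ≃ₗ[ℤ] (V → ℤ) := LinearEquiv.ofLinearMap P.mulVecLin P'.mulVecLin
    (by rw [← Matrix.mulVecLin_mul, hP, Matrix.mulVecLin_one])
    (by rw [← Matrix.mulVecLin_mul, hP', Matrix.mulVecLin_one])
  have hmap : (LinearMap.range L1.mulVecLin).map (e : (V → ℤ) →ₗ[ℤ] (V → ℤ)) =
      LinearMap.range L2.mulVecLin := by
    ext y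
    constructor
    · rintro ⟨_, ⟨x, rfl⟩, rfl⟩
      refine ⟨Q' *ᵥ x, ?_⟩
      rw [Matrix.mulVecLin_apply, ← h, Matrix.mulVec_mulVec, Matrix.mul_assoc, hQ, Matrix.mul_one]
      exact (Matrix.mulVec_mulVec x P L1).symm
    · rintro ⟨x, rfl⟩
      refine ⟨L1 *ᵥ (Q *ᵥ x), ⟨Q *ᵥ x, rfl⟩, ?_⟩
      rw [Matrix.mulVecLin_apply, ← h, ← Matrix.mulVec_mulVec, ← Matrix.mulVec_mulVec]
      rfl
  have e2 : Coker L1 ≃+ Coker L2 :=
    (Submodule.Quotient.equiv (LinearMap.range L1.mulVecLin) (LinearMap.range L2.mulVecLin) e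
      hmap).toAddEquiv
  exact torsion_equiv e2

/-- The position of a vector of `F_2^2` in the ordering `0, e_1, e_2, e_1 + e_2`. -/
def idx (w : W 2) : Fin 4 := Fin.ofNat 4 ((w 0).val + 2 * (w 1).val)

/-- `idx` as an equivalence. -/
noncomputable def idxE : W 2 ≃ Fin 4 := Equiv.ofBijective idx (by decide)

/-- A matrix over `F_2^2` from a `4 × 4` array. -/
noncomputable def mat (A : Matrix (Fin 4) (Fin 4) ℤ) : Matrix (W 2) (W 2) ℤ := A.submatrix idxE idxE

theorem mat_mul (A B : Matrix (Fin 4) (Fin 4) ℤ) : mat A * mat B = mat (A * B) :=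
  Matrix.submatrix_mul_equiv A B idxE idxE idxE

theorem mat_one : mat 1 = 1 := Matrix.submatrix_one_equiv idxE

theorem forall_W2 {p : W 2 → Prop} (h1 : p ![0, 0]) (h2 : p ![1, 0]) (h3 : p ![0, 1])
    (h4 : p ![1, 1]) : ∀ w, p w := by
  intro w
  have h : w = ![0, 0] ∨ w = ![1, 0] ∨ w = ![0, 1] ∨ w = ![1, 1] := by
    revert w; decide
  rcases h with rfl | rfl | rfl | rfl <;> assumption

/-- Multiplicities `0, 1, 5` of `e_1, e_2, e_1 + e_2`. -/
def μ1 : W 2 → ℕ := fun w => ![0, 0, 1, 5] (idx w)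

/-- Multiplicities `0, 2, 3` of `e_1, e_2, e_1 + e_2`. -/
def ν1 : W 2 → ℕ := fun w => ![0, 0, 2, 3] (idx w)

/-- Multiplicities `1, 2, 8` of `e_1, e_2, e_1 + e_2`. -/
def μ2 : W 2 → ℕ := fun w => ![0, 1, 2, 8] (idx w)

/-- Multiplicities `1, 4, 5` of `e_1, e_2, e_1 + e_2`. -/
def ν2 : W 2 → ℕ := fun w => ![0, 1, 4, 5] (idx w)

theorem lap_μ1 : lap μ1 = mat !![6, 0, -1, -5; 0, 6, -5, -1; -1, -5, 6, 0; -5, -1, 0, 6] := by
  ext w w'
  revert w
  apply forall_W2 <;> revert w' <;> apply forall_W2 <;> decide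

theorem lap_ν1 : lap ν1 = mat !![5, 0, -2, -3; 0, 5, -3, -2; -2, -3, 5, 0; -3, -2, 0, 5] := by
  ext w w'
  revert w
  apply forall_W2 <;> revert w' <;> apply forall_W2 <;> decide

theorem lap_μ2 : lap μ2 = mat !![11, -1, -2, -8; -1, 11, -8, -2; -2, -8, 11, -1; -8, -2, -1, 11] := by
  ext w w'
  revert w
  apply forall_W2 <;> revert w' <;> apply forall_W2 <;> decide

theorem lap_ν2 : lap ν2 = mat !![10, -1, -4, -5; -1, 10, -5, -4; -4, -5, 10, -1; -5, -4, -1, 10] := by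
  ext w w'
  revert w
  apply forall_W2 <;> revert w' <;> apply forall_W2 <;> decide

theorem iso1 : Nonempty (K μ1 ≃+ K ν1) := by
  apply coker_equiv (lap μ1) (lap ν1)
    (mat !![1, 0, 0, 0; -2, 1, -1, 6; -7, 0, 1, -2; 9, 0, 1, -3])
    (mat !![1, 0, 0, 0; -55, 1, -3, 4; 39, 0, 3, -2; 16, 0, 1, -1])
    (mat !![-3, 0, 1, 3; -66, 1, 22, 44; -23, 0, 8, 16; 0, 0, 0, 1])
    (mat !![-8, 0, 1, 8; -22, 1, 0, 22; -23, 0, 3, 21; 0, 0, 0, 1])
  · rw [mat_mul, ← mat_one]; congr 1; decide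
  · rw [mat_mul, ← mat_one]; congr 1; decide
  · rw [mat_mul, ← mat_one]; congr 1; decide
  · rw [lap_μ1, lap_ν1, mat_mul, mat_mul]; congr 1; decide

theorem iso2 : Nonempty (K μ2 ≃+ K ν2) := by
  apply coker_equiv (lap μ2) (lap ν2)
    (mat !![1, 0, 0, 0; 232, 4, 8, -131; -175, -2, -5, 99; -57, -1, -2, 33])
    (mat !![1, 0, 0, 0; 197, -33, 2, -137; -193, 33, -1, 134; -4, 1, 0, 4])
    (mat !![-17, 0, 3, 13; 137, 1, -23, -116; -143, 0, 26, 116; -6, 0, 1, 4])
    (mat !![-12, 0, 1, 10; 300, 1, -23, -279; -124, 0, 10, 113; 13, 0, -1, -13])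
  · rw [mat_mul, ← mat_one]; congr 1; decide
  · rw [mat_mul, ← mat_one]; congr 1; decide
  · rw [mat_mul, ← mat_one]; congr 1; decide
  · rw [lap_μ2, lap_ν2, mat_mul, mat_mul]; congr 1; decide

theorem not_equiv_of_value {r : ℕ} {μ ν : W r → ℕ} (u : W r) (hu : u ≠ 0)
    (h : ∀ w, w ≠ 0 → ν w ≠ μ u) : ¬ GLEquivalent μ ν := by
  rintro ⟨T, hT⟩
  exact h (T u) (fun h0 => hu (T.map_eq_zero_iff.1 h0)) (hT u hu)

theorem generating_of {μ : W 2 → ℕ} (h1 : 0 < μ ![0, 1]) (h2 : 0 < μ ![1, 1]) :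
    Generating μ := by
  rw [Generating, eq_top_iff]
  intro x hx0
  clear hx0
  have h3 : (![0, 1] : W 2) ∈ Submodule.span (ZMod 2) {u : W 2 | u ≠ 0 ∧ 0 < μ u} :=
    Submodule.subset_span ⟨by decide, h1⟩
  have h4 : (![1, 1] : W 2) ∈ Submodule.span (ZMod 2) {u : W 2 | u ≠ 0 ∧ 0 < μ u} :=
    Submodule.subset_span ⟨by decide, h2⟩
  have h5 : x = (x 0 + x 1) • ![0, 1] + x 0 • ![1, 1] := by
    clear h3 h4
    revert x; decide
  rw [h5]
  exact Submodule.add_mem _ (Submodule.smul_mem _ _ h3) (Submodule.smul_mem _ _ h4)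

end aux

/-- Q1 fails: there are non-`GL`-equivalent generator multiplicity functions on `F_2^2` with
isomorphic sandpile groups, with multiplicities `(0,1,5)` and `(0,2,3)`, and also, with full
support, `(1,2,8)` and `(1,4,5)`. -/
theorem result :
    ¬ Q1 ∧
    (∃ μ ν : W 2 → ℕ, Generating μ ∧ Generating ν ∧ (∀ u, u ≠ 0 → 0 < μ u ∧ 0 < ν u) ∧
      ¬ GLEquivalent μ ν ∧ Nonempty (K μ ≃+ K ν)) := by
  constructor
  · intro h
    have h1 := (h 2 μ1 ν1 (by norm_num) (generating_of (by decide) (by decide))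
      (generating_of (by decide) (by decide))).1 iso1
    exact not_equiv_of_value ![1, 1] (by decide) (by decide) h1
  · exact ⟨μ2, ν2, generating_of (by decide) (by decide), generating_of (by decide) (by decide),
      by decide, not_equiv_of_value ![1, 1] (by decide) (by decide), iso2⟩

end Pool.Agent.Results.MP_93e4b7_co.NotGLDetermined
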